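import Pool.Agent.X17.DD.Sets

/-!
# Ratios of counts of permutations with one double descent

`dd({i}; n)` is the number of permutations of `n` letters whose only double descent is `i`. For all
`i, j ≥ 2` the ratio `dd({i}; n) / dd({j}; n)` converges to a positive real number.

The proof expresses `dd({i}; n)` by the numbers `dd(∅; m)` (inclusion and exclusion over the decreasing
run after the beginning of length `i + 1`); with `x₀ = 2π / (3√3)` the sequence `dd(∅; n) x₀ⁿ / n!`
converges to a positive number, hence so does `dd({i}; n) x₀ⁿ / n!`.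
-/

set_option autoImplicit false

namespace Pool.Agent.Results.MP_a5b9bd_co.SingletonRatio

open Filter Topology

/-- `i` is a double descent of `w`: `2 ≤ i ≤ n - 1` and `w(i-1) > w(i) > w(i+1)`. Here the positions
are `1, …, n`; position `k` is the element `k - 1` of `Fin n`. -/
def IsDoubleDescent {n : ℕ} (w : Equiv.Perm (Fin n)) (i : ℕ) : Prop :=
  ∃ (_ : 2 ≤ i) (_ : i < n),
    w ⟨i - 1, by omega⟩ < w ⟨i - 2, by omega⟩ ∧ w ⟨i, by omega⟩ < w ⟨i - 1, by omega⟩

/-- The number of permutations of `n` letters with double descent set `I`. -/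
noncomputable def dd (I : Finset ℕ) (n : ℕ) : ℕ :=
  Nat.card {w : Equiv.Perm (Fin n) // ∀ i : ℕ, IsDoubleDescent w i ↔ i ∈ I}

lemma isDD_iff {n : ℕ} (π : Equiv.Perm (Fin n)) (i : ℕ) :
    IsDoubleDescent π (i + 2) ↔ Pool.Agent.X17.DD.Dn π i ∧ Pool.Agent.X17.DD.Dn π (i + 1) := by
  unfold IsDoubleDescent Pool.Agent.X17.DD.Dn
  constructor
  · rintro ⟨h1, h2, h3, h4⟩
    exact ⟨⟨by omega, h3⟩, ⟨h2, h4⟩⟩
  · rintro ⟨⟨h1, h2⟩, ⟨h3, h4⟩⟩
    exact ⟨by omega, h3, h2, h4⟩

lemma dd_eq (l n : ℕ) :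
    dd {l + 2} n = Pool.Agent.X17.DD.num n (Pool.Agent.X17.DD.Ex fun i => i = l) := by
  unfold dd Pool.Agent.X17.DD.num
  refine Nat.card_congr (Equiv.subtypeEquivRight fun π => ?_)
  unfold Pool.Agent.X17.DD.Ex
  constructor
  · intro h i
    rw [← isDD_iff, h, Finset.mem_singleton]
    omega
  · intro h i
    rw [Finset.mem_singleton]
    by_cases hi : 2 ≤ i
    · obtain ⟨k, rfl⟩ := Nat.exists_eq_add_of_le' hi
      rw [isDD_iff, ← h k]
      omega
    · constructor
      · rintro ⟨h1, _⟩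
        exact absurd h1 hi
      · intro h1
        omega

/-- **Theorem.** For all integers `i, j ≥ 2` the ratio `dd({i}; n) / dd({j}; n)` converges to a
positive real number (the denominators are positive for `n ≥ j + 1`). -/
theorem result (i j : ℕ) (hi : 2 ≤ i) (hj : 2 ≤ j) : (∀ n : ℕ, j + 1 ≤ n → 0 < dd {j} n) ∧
    ∃ c : ℝ, 0 < c ∧ Tendsto (fun n : ℕ => (dd {i} n : ℝ) / (dd {j} n : ℝ)) atTop (𝓝 c) := by
  obtain ⟨k, rfl⟩ := Nat.exists_eq_add_of_le' hi
  obtain ⟨l, rfl⟩ := Nat.exists_eq_add_of_le' hj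
  simp only [dd_eq]
  refine ⟨fun n hn => Pool.Agent.X17.DD.single_pos l (by omega), ?_⟩
  refine Pool.Agent.X17.DD.ratio _ _ ⟨k + 1, fun i hi => by omega⟩ ⟨l + 1, fun i hi => by omega⟩ ?_ ?_
  · filter_upwards [eventually_ge_atTop (k + 3)] with n hn
    exact Pool.Agent.X17.DD.single_pos k hn
  · filter_upwards [eventually_ge_atTop (l + 3)] with n hn
    exact Pool.Agent.X17.DD.single_pos l hn

end Pool.Agent.Results.MP_a5b9bd_co.SingletonRatio
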